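import Pool.Agent.Helper47.QL.CT
import Pool.Agent.Helper99.MS.Spec

/-! # Project STL, H1 and H3 for the Moebius function: the spectrum of `gg` with the kernel `KJ` -/

set_option autoImplicit false

namespace Pool.Agent.Helper47.STL

open MeasureTheory Set Filter Topology
open Pool.Agent.Helper99.MS (mr ff GB ZL gg gg_cont gg_bd gg_pos gg_neg GG_spec ell CI CI_nonneg)
open Pool.Agent.Helper95.QL (pw KJ ZM)
open Pool.Agent.Helper47.QL (trig_repr_p ell_le_pw)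

variable {B : ℝ} {k : ℕ}

theorem gg_contJ (h : GB (ff mr) B) (hk : 2 ≤ k) : Continuous (gg (4 * k)) := gg_cont h (by omega)

theorem gg_pw (h : GB (ff mr) B) (hk : 2 ≤ k) (v : ℝ) :
    ‖gg (4 * k) v‖ ≤ (B * (16 + 44 * ((4 * k : ℕ) : ℝ) ^ (3/8 : ℝ) * CI)) * pw v := by
  have hB := h.nonneg
  have hCI := CI_nonneg
  exact (gg_bd h hk v).trans (mul_le_mul_of_nonneg_left (ell_le_pw v) (by positivity))

/-- over the zeros -/
theorem gg_reprJ0 (h : GB (ff mr) B) (hk : 2 ≤ k) {L : ℝ} (hL : 0 < L) :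
    ∃ b : ℝ → ℂ, ∀ u, ∫ v, gg (4 * k) (v + u) * (KJ L v : ℂ) =
      ∑ γ ∈ ZL L, b γ * Complex.exp (γ * u * Complex.I) := by
  obtain ⟨c, hc⟩ := GG_spec h (by omega : 1 ≤ k) L
  have hB := h.nonneg
  have hCI := CI_nonneg
  exact trig_repr_p (gg_cont h (by omega)) (C := B * (16 + 44 * ((4 * k : ℕ) : ℝ) ^ (3/8 : ℝ) * CI))
    (by positivity) (gg_pw h hk) (r := 1/4) (by norm_num) (fun s hs hs' => gg_pos h (by omega) hs hs')
    (fun s hs hs' => gg_neg h (by omega) hs hs') hL (ZL L) c hc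

/-- over the zeros and `0` -/
theorem gg_reprJ (h : GB (ff mr) B) (hk : 2 ≤ k) {L : ℝ} (hL : 0 < L) :
    ∃ b : ℝ → ℂ, ∀ u, ∫ v, gg (4 * k) (v + u) * (KJ L v : ℂ) =
      ∑ γ ∈ ZM L, b γ * Complex.exp (γ * u * Complex.I) := by
  classical
  obtain ⟨b, hb⟩ := gg_reprJ0 h hk hL
  refine ⟨fun γ => if γ ∈ ZL L then b γ else 0, fun u => ?_⟩
  rw [hb u]
  have h1 : ∑ γ ∈ ZL L, b γ * Complex.exp (γ * u * Complex.I) =
      ∑ γ ∈ ZL L, (if γ ∈ ZL L then b γ else 0) * Complex.exp (γ * u * Complex.I) := by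
    apply Finset.sum_congr rfl
    intro γ hγ
    rw [if_pos hγ]
  rw [h1]
  apply Finset.sum_subset
  · unfold ZM
    exact Finset.subset_insert _ _
  · intro γ _ hγ
    rw [if_neg hγ, zero_mul]

end Pool.Agent.Helper47.STL
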